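import Pool.Agent.N162.GP.Sep
import Pool.Agent.N162.GQ.CP

/-!
# The conjecture of Campana and Peternell for the varieties dominated by the product of a smooth
complete intersection and a curve

Let `V` be a smooth complete intersection of dimension `n ≥ 1` and of codimension at least two in a
projective space with `K_V = O(m)`, or more generally any variety in projective `(M + 1)`-space which is
cut out by equations of degree at most `D` and has the regular canonical forms `P(x) ω₀` for all forms
`P` of degree `m` (`LowDegree`, `Pool/Agent/N162/GP/Def.lean`).
Let `C` be a smooth projective curve of any genus, and let `V × C ⇢ W` be a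
dominant rational map of finite degree to a variety `W`. It need not be related to the product
structure, and it need not be the quotient by a group. Let `d` be the number of different points of `V`
below a general fibre, i.e. the degree over `W` of the image of `V × C` in `W × V`; it is at most the
degree of `V × C ⇢ W`, which may be arbitrarily large.

**Theorem.** Let `m ≥ 7 N + 4`, `(M + 1) N < m + M + 2`, `D + N ≤ m + 2` and
`2 d < (N + 1) (m + 2 - N)`. Let `X` be a smooth projective variety birational to `W`, let `A` be a
divisor on `X` (or on a blow-up of `X`), and `r ≥ 1` such that `r K_X - A` is pseudo-effective. Then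
`κ(X) ≥ κ(A)`.

So Q1 has a positive answer for all these `X`: if `K_X ∼ A + B` (over `ℚ`) with `A` effective and `B`
pseudo-effective then `κ(X) ≥ κ(A)`. With `A = 0`: if `K_X` is pseudo-effective then `κ(X) ≥ 0`. For
smooth complete intersections of the type `(d_1, ..., d_q)` in `ℙ^(n+q)` one has `m = ∑ d_i - n - q - 1`,
`D = max d_i`, `M + 1 = n + q`. With the best `N` the bound for `d` is `(3 / 49 - o(1)) m ^ 2` if `M ≤ 5`
and `max d_i ≤ 6 m / 7`. There is no condition on the irregularity: for `n ≥ 2` the variety `V` is simply
connected, and `q(W) = 0` is possible.

## Proof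

If `κ(A) ≥ 0` then `K_X` is pseudo-effective. By the theory of helper145 for the varieties dominated by
a product `V × C` where the canonical forms of `V` separate `2 d` points, `κ(X) ≥ dim X - 1`. That fewer
than `(N + 1) (m + 2 - N)` generic points of `V` are separated is the main point; see
`MP_31564d_ag.CompleteIntersections`. It remains to see that `κ(A) = dim X` implies `κ(X) = dim X`. Let
`f_0, ..., f_w` be sections of `m' A` with algebraically independent ratios, and let `S` be a finite set of
functions which gives the divisor `H` in the definition of pseudo-effectivity. There is a polynomial `c`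
in the ratios such that `c s` is integral over the ring of these polynomials, for `s ∈ S`. Hence
`c f_0^T` is a section of `T m' A - H` for large `T` (Kodaira's lemma), and the products of
`c f_0^T f_i` with a section of `(T + 1) m' (r K_X - A) + H` are sections of `(T + 1) m' r K_X` with
algebraically independent ratios.

The parts for this theorem were formalised by helper2, helper11, helper340, helper774, helper823,
helper152, helper383, helper252, helper339, helper681 and helper364, and helper145, helper123, helper221,
helper160, helper279, helper603, helper545, helper281, helper438, helper277 and helper999 (varieties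
dominated by a product with a curve), the earlier parts which are used by helper565, helper279,
helper543, helper488, helper570, helper80 and others; the assembly by helper162.
-/

set_option autoImplicit false
set_option linter.overlappingInstances false
set_option maxHeartbeats 4000000
set_option synthInstance.maxHeartbeats 400000

open FF Module Pool.Agent Pool.Agent.W602.GT Pool.Agent.N162.BC Pool.Agent.N162.GP
open Pool.Agent.N162.GQ (DivKodGe PsefRest)

namespace Pool.Agent.Results.MP_370cf3_ag.CompleteIntersectionTimesCurve

/-- **The conjecture of Campana and Peternell for the varieties dominated by `V × C`.** (1) A smooth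
complete intersection `V` of dimension `n ≥ 1` of hypersurfaces of the degrees `d i ≤ D` in projective
`(M + 1)`-space is cut out by equations of degree at most `D`, and the forms of degree
`m = ∑ d i - M - 2` give regular canonical forms. (2) Let `V` be any such variety of dimension `n` in
projective `(M + 1)`-space, `M ≥ 1`, and let `m ≥ 7 N + 4`, `(M + 1) N < m + M + 2`, `D + N ≤ m + 2`. Let
`K` be the function field of `V × C`, i.e. the compositum of the function fields `E` of `V` and `C` of a
curve, of transcendence degree `n + 1`. Let `L ⊆ K` be the function field of a variety `W` such that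
the extension is finite, and let `2 d < (N + 1) (m + 2 - N)`, where `d` is the degree over `W` of the
image of `V × C` in `W × V`. Let `a` be the function of the multiplicities of a divisor `A` along the
prime divisors over `W`. If `r K - A` is pseudo-effective for some `r ≥ 1` and `κ(A) ≥ l` then
`κ(W) ≥ l`. -/
theorem result :
    (∀ (M n q m D : ℕ) (E : Type) [Field E] [Algebra ℂ E]
      (F : Fin q → MvPolynomial (Fin (M + 2)) ℂ) (d : Fin q → ℕ) (x : Fin (M + 2) → E),
      SmoothCI F d x → 1 ≤ n → Algebra.trdeg ℂ E = n → n + q = M + 1 → m + M + 2 = ∑ i, d i →
      (∀ i, d i ≤ D) → 1 ≤ D → LowDegree n m D x) ∧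
    ∀ (M n m D N : ℕ) (K : Type) [Field K] [Algebra ℂ K] [Algebra.EssFiniteType ℂ K]
      (E C : IntermediateField ℂ K) [IsFF ℂ C] (x : Fin (M + 2) → E),
      LowDegree n m D x → 1 ≤ M → 7 * N + 4 ≤ m → (M + 1) * N < m + M + 2 → D + N ≤ m + 2 →
      E ⊔ C = ⊤ → Algebra.trdeg ℂ K = (n + 1 : ℕ) →
      ∀ (L : Type) [Field L] [Algebra ℂ L] [Algebra L K] [IsScalarTower ℂ L K]
        [FiniteDimensional L K],
        2 * finrank L (IntermediateField.adjoin L (E : Set K)) < (N + 1) * (m + 2 - N) →
        ∀ (r : ℕ) (a : Place ℂ L → ℤ), 1 ≤ r → PsefRest L (n + 1) r a →
          ∀ l : ℕ, DivKodGe L (n + 1) a l → KodGe ℂ L (n + 1) (fun _ => False) l := by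
  refine ⟨fun M n q m D E _ _ F d x h hn hE hq hm hD hD1 =>
    lowDegree_of_smoothCI fCIC fCIA h hn hE hq hm hD hD1, ?_⟩
  intro M n m D N K _ _ _ E C _ x h hM hm hN hD hEC hK L _ _ _ _ _ hd r a hr ha l hl
  haveI := ess_of_gen h.gen
  obtain ⟨z, e, hz, he⟩ := Pool.Agent.Y172.exists_crd h.dim
  have hL : Algebra.trdeg ℂ L = (n + 1 : ℕ) := Pool.Agent.Y184.NT.trdeg_below (K := K) hK
  refine Pool.Agent.N162.GQ.cp_of_dich hL hr (fun hp => ?_) ha hl
  refine ((N145.SX.dichotomy_all hEC h.dim hK hz (BX := fun _ => False)
    (B := (∅ : Set (Place ℂ C))) Set.finite_empty (BL := fun _ => False) ?_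
    (sepX_low fINX h hM hm hN hD hz he (fun _ => False)) hd).out 0 1).1 hp
  refine fun P Q e _ => ⟨False.elim, fun h2 => ?_⟩
  rcases h2 with ⟨_, _, h3, -⟩ | ⟨_, h3, -⟩
  · exact h3
  · exact h3

end Pool.Agent.Results.MP_370cf3_ag.CompleteIntersectionTimesCurve
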