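import Pool.Agent.Y221.CF.Abu
import Pool.Agent.TH466.QG.Top
import Pool.Agent.N133.GA

/-!
MP_370cf3_ag, Q1: the conjecture of Campana and Peternell for all projective manifolds which are
birational to images, under rational maps of bounded degree, of the components of
projective varieties given by sums of few high powers.

`IsPsefRest k L w (fun _ => False) q a`: `q K_M - A` is pseudo-effective, where the divisor `A` has
the multiplicity `a v` along `v`. `DivKodGe k L w a h`: the Iitaka dimension of `A` is at least
`h`; `TW.KodGe k L w (fun _ => False) h`: the Kodaira dimension of `M` is at least `h` (all of them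
are defined by growth of sections, `Pool/Agent/W619/TW/NDefs.lean` and `CPDefs.lean`).
-/

set_option autoImplicit false
set_option linter.overlappingInstances false

namespace Pool.Agent.Results.MP_370cf3_ag.DominatedCampanaPeternell

open Pool.Agent.W602.GT (GeneralType Psef KodGe Ruled HighPowers SubVar IsComponent Divisorial)
open Pool.Agent.W619.PQ (IsUniruled)
open Pool.Agent.W619 (TW.IsPsefRest TW.DivKodGe TW.KodGe)

/-- Let `V` be an irreducible component, of dimension `w ≥ 1`, of a projective variety given by sums
of at most `s` powers of linear forms, or by forms with at most `s` monomials and divisible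
exponents, and let the exponents be at least `N ≥ r w (s + 4) (s - 1) (s - 2) / 2`, with the function
field `K`. Let `L` be a subfield of `K` with `[K : L] ≤ r`: the function field of the image of `V`
under an arbitrary dominant rational map of degree at most `r`. Let `M` be a projective manifold with this function
field, and let `A` be a divisor on `M` such that `q K_M - A` is pseudo-effective for some `q ≥ 1`
(that is, `K_M` is, up to linear equivalence of `ℚ`-divisors, the sum of `(1 / q) A` and a
pseudo-effective divisor). Then the Kodaira dimension of `M` is at least the Iitaka dimension of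
`A`. -/
theorem result {k : Type} [Field k] [CharZero k] [IsAlgClosed k] {n : ℕ} {ι : Type}
    {F : ι → MvPolynomial (Fin (n + 1)) k} {s N w r : ℕ} (hF : HighPowers s N F) (hN1 : 1 ≤ N)
    (hw : 1 ≤ w) (hN : r * (w * ((s + 4) * ((s - 1) * (s - 2) / 2))) ≤ N) {K L : Type} [Field K]
    [Field L] [Algebra k K] [Algebra k L] [Algebra L K] [IsScalarTower k L K]
    [FiniteDimensional L K] {y : Fin (n + 1) → K} (hy : SubVar F K w y)
    (hcomp : IsComponent F y) (hr : Module.finrank L K ≤ r) :
    ∀ (q : ℕ), 1 ≤ q → ∀ (a : FF.Place k L → ℤ),
      TW.IsPsefRest k L w (fun _ => False) q a → ∀ h : ℕ, TW.DivKodGe k L w a h →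
        TW.KodGe k L w (fun _ => False) h := by
  obtain ⟨h1, h2⟩ := Pool.Agent.Y221.CF.abu_comp hF hN1 hw hN hy hcomp hr
  have hessK : Algebra.EssFiniteType k K := Pool.Agent.TH466.QG.SubVar.ess hy
  have hess : Algebra.EssFiniteType k L := Pool.Agent.TH466.QG.ess_below (K := K)
  have e1 : Psef k L w (fun _ => False) ↔ GeneralType k L w := h1.out 0 2
  intro q hr1 a hps h hA
  refine Pool.Agent.N133.GA.cp_dich hw ?_ hr1 hps hA
  by_cases hP : Psef k L w (fun _ => False)
  · exact Or.inl (e1.1 hP)
  · exact Or.inr (h2 hP)

end Pool.Agent.Results.MP_370cf3_ag.DominatedCampanaPeternell
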