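import Pool.Agent.N115.IM.Top
import Pool.Agent.N133.GA

/-!
# The conjecture of Campana and Peternell for the images of bounded degree of the varieties of the
vectors whose powers are the values of a polynomial

MP_370cf3_ag, Q1. Let `a 0, ..., a N` be distinct constants and `m ≥ 2`. Let `X ⊆ P^N` be the
`n`-dimensional complete intersection of the points `x` for which there is a polynomial `H` of degree
at most `n` such that `x i ^ m = H (a i)` for all `i`, and let `Z` be a closed subvariety of `X`, of
any dimension `w ≥ 1`. We consider all the projective manifolds `W` which are dominated by `Z` with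
degree at most `r`, and all those with an `r`-valued map to `Z`; no assumption is made on the branch
loci or on the singularities of the maps.

The function-field language of the starting repository is used. For a projective manifold `W` with
function field `L`: `IsPsefRest k L w (fun _ => False) j b` says that `j K_W - A` is pseudo-effective,
where the divisor `A` has the multiplicity `b v` along `v`; `DivKodGe k L w b l`: the Iitaka
dimension of `A` is at least `l`; `KodGe k L w (fun _ => False) l`: `κ(W) ≥ l` (all of them are
defined by growth of sections, `Pool/Agent/W619/TW/NDefs.lean` and `CPDefs.lean`); `Ruled k K`: `Z`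
is birational to the product of a variety and the projective line (`Pool/Agent/W602/GT`);
`coords k y` is the field of the ratios of the homogeneous coordinates `y`. The parts were written
by the helpers 115, 895, 157, 813, 133.
-/

set_option autoImplicit false

open Pool.Agent.W602.GT (coords Ruled GeneralType essFinite)
open Pool.Agent.W619 (TW.IsPsefRest TW.DivKodGe TW.KodGe)

namespace Pool.Agent.Results.MP_370cf3_ag.PolynomialValueDecompositions

/-- `K` is the function field, and `y` the generic point in homogeneous coordinates, of a closed
subvariety `Z` of dimension `w` of the variety `X ⊆ P^N` of the points `x` for which there is a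
polynomial of degree at most `n` whose values at the `a i` are the `x i ^ m`; the polynomial of the
generic point is `H`. -/
structure Subvariety {k : Type} [Field k] {N : ℕ} (a : Fin (N + 1) → k) (n m w : ℕ) (K : Type)
    [Field K] [Algebra k K] (y : Fin (N + 1) → K) (H : Polynomial K) : Prop where
  ne : y ≠ 0
  gen : coords k y = ⊤
  dim : Algebra.trdeg k K = w
  deg : H.natDegree ≤ n
  val : ∀ i, y i ^ m = H.eval (algebraMap k K (a i))

/-- The conjecture of Campana and Peternell for all projective manifolds `W` with function field `L`
and dimension `w`: if `j K_W - A` is pseudo-effective for a divisor `A` and some `j ≥ 1` (that is,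
`K_W` is, up to linear equivalence of `ℚ`-divisors, the sum of `(1 / j) A` and a pseudo-effective
divisor), then the Kodaira dimension of `W` is at least the Iitaka dimension of `A`. -/
def CampanaPeternell (k : Type) [Field k] (L : Type) [Field L] [Algebra k L] (w : ℕ) : Prop :=
  ∀ (j : ℕ), 1 ≤ j → ∀ (b : FF.Place k L → ℤ), TW.IsPsefRest k L w (fun _ => False) j b →
    ∀ l : ℕ, TW.DivKodGe k L w b l → TW.KodGe k L w (fun _ => False) l

/-- Let `m ≥ 2`, `r ≥ 1`, `4 n + (n + 2 r - 1) ^ 2 < 2 (N + 1)`, and let `Z` be a closed subvariety of
dimension `w ≥ 1` of `X`, with generic polynomial `H`.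
**(1)** Assume that `H` is not divisible by the `m`-th power of a polynomial of degree at least `2`.
The conjecture of Campana and Peternell holds for every projective manifold `W` dominated by `Z` with
degree at most `r`, and, if `Z` is not ruled, for all projective manifolds `W` with generically
finite dominant rational maps `Z' ⇢ Z` of any degree and `Z' ⇢ W` of degree at most `r`.
**(2)** The assumption holds if `n < 2 m`, and if `n < w + 2 (m - 1)`: so it holds for all `Z` of
codimension less than `2 (m - 1)` in `X`. If `Z` is of codimension less than `m - 1` in `X`, for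
instance if `Z = X`, then `Z` is not ruled. -/
theorem result {k : Type} [Field k] [CharZero k] [IsAlgClosed k] {N n m r : ℕ} (hm : 2 ≤ m)
    (hr : 1 ≤ r) (hN : 4 * n + (n + 2 * r - 1) ^ 2 < 2 * (N + 1)) (a : Fin (N + 1) → k)
    (ha : Function.Injective a) {K : Type} [Field K] [Algebra k K] {w : ℕ} (hw : 1 ≤ w)
    {y : Fin (N + 1) → K} {H : Polynomial K} (hZ : Subvariety a n m w K y H) :
    ((∀ q : Polynomial K, 2 ≤ q.natDegree → ¬ q ^ m ∣ H) →
      (∀ (L : Type) [Field L] [Algebra k L] [Algebra L K] [IsScalarTower k L K]
        [FiniteDimensional L K], Module.finrank L K ≤ r → CampanaPeternell k L w) ∧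
      (¬ Ruled k K → ∀ (K' L : Type) [Field K'] [Field L] [Algebra k K'] [Algebra k L]
        [Algebra K K'] [Algebra L K'] [IsScalarTower k K K'] [IsScalarTower k L K']
        [FiniteDimensional K K'] [FiniteDimensional L K'], Module.finrank L K' ≤ r →
        CampanaPeternell k L w)) ∧
    (n < 2 * m ∨ n < w + 2 * (m - 1) → ∀ q : Polynomial K, 2 ≤ q.natDegree → ¬ q ^ m ∣ H) ∧
    (n < w + (m - 1) → ¬ Ruled k K) := by
  refine ⟨fun hfac => ⟨fun L _ _ _ _ _ hfr => ?_, fun hnr K' L _ _ _ _ _ _ _ _ _ _ hfr => ?_⟩,
    fun h q hq => ?_, fun h => ?_⟩
  · have hess : Algebra.EssFiniteType k K := essFinite hZ.gen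
    have hessL : Algebra.EssFiniteType k L := Pool.Agent.TH466.QG.ess_below (K := K)
    have hT := Pool.Agent.N115.IM.below_tfae hm hr hw hN ha hZ.dim hZ.ne hZ.gen hZ.deg hZ.val
      hfac hfr
    have h34 : ¬ GeneralType k L w ↔ Ruled k K := hT.out 3 4
    intro j hj b hps l hA
    refine Pool.Agent.N133.GA.cp_dich hw ?_ hj hps hA
    by_cases hg : GeneralType k L w
    · exact Or.inl hg
    · exact Or.inr (Pool.Agent.TH466.QG.neg_below hZ.dim (h34.1 hg)).2.2
  · have hess : Algebra.EssFiniteType k K := essFinite hZ.gen
    have hess' : Algebra.EssFiniteType k K' := Algebra.EssFiniteType.comp k K K'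
    have hessL : Algebra.EssFiniteType k L := Pool.Agent.TH466.QG.ess_below (K := K')
    have hg : GeneralType k L w := Pool.Agent.N115.IM.corr_general hm hr hw hN ha hZ.dim hZ.ne
      hZ.gen hZ.deg hZ.val hfac hnr hfr
    intro j hj b hps l hA
    exact Pool.Agent.N133.GA.cp_dich hw (Or.inl hg) hj hps hA
  · exact Pool.Agent.N115.IM.no_factor hm hZ.dim hZ.ne hZ.gen hZ.deg hZ.val (d := 2)
      (h.imp (fun h => by omega) fun h => by omega) q hq
  · refine Pool.Agent.N115.IM.not_ruled hm hw ?_ ha hZ.dim hZ.ne hZ.gen hZ.deg hZ.val (Or.inr h)
    have h1 : n + 1 ≤ n + 2 * r - 1 := by omega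
    have h2 : (n + 1) ^ 2 ≤ (n + 2 * r - 1) ^ 2 := Nat.pow_le_pow_left h1 2
    omega

end Pool.Agent.Results.MP_370cf3_ag.PolynomialValueDecompositions
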