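import Pool.Agent.N133.TB.MgC

/-!
MP_370cf3_ag, Q1: `κ (X) ≥ κ (A)` for varieties with tensors which vanish along the divisor `A`.

`NormalModel y` (`Pool/Agent/Y172/Defs.lean`): `y` is the generic point, in homogeneous coordinates,
of a normal projective variety `X` with function field `K`; `IsPrimeDivisor y P` says that the
valuation `P` of `K` is a prime divisor of `X`. Divisors are given by their multiplicities.
`IsPluri 1 η`: `η` is a rational `n`-form on `X`; `OrdEq P η c`: its order along `P` is `c`. So `κ` is
a canonical divisor of `X` and `κ + Δ` is the divisor `K_X + Δ`.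

`IsTensorV y Δ L T` (`Pool/Agent/N133/TB/TwA.lean`): the `K`-multilinear form `T` on the rational
vector fields is a tensor differential of `(X, Δ)` with values in the divisor `L`: if the vector
fields `D j` are regular along the prime divisor `P` and, for `j` not in `S`, tangent to `P`, then
`T D` has order at least `- (|S| Δ P + L P)` along `P`. For `X` smooth, `Δ = 0` and `L = - a A` these
are the holomorphic tensors on `X` (sections of `(Ω¹) ^ ⊗ m`) which vanish along `a A`.
`FunSec y L f`: `f` is a section of `L`, `div f + L ≥ 0`. `ratioField y D`: the field generated by the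
quotients of two sections of one positive multiple of `D`; its transcendence degree over `ℂ` is the
Iitaka dimension of `D` (if a positive multiple of `D` has a nonzero section).

`WtBasis T f w μ` (`Pool/Agent/N133/TB/Can.lean`): the vector fields `f j`, `j < n`, are linearly
independent over `K`, their weights `w j` are real numbers with `∑ w = 0`, `∑ w ^ 2 = 1`, and all
coefficients `T i (f (J 0), f (J 1), …)` with weight `∑ s, w (J s)` less than `μ` vanish.
`lvl K f w b`: the span of the `f j` with `w j ≤ b`, a distribution (subsheaf of the tangent sheaf).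
-/

set_option autoImplicit false

namespace Pool.Agent.Results.MP_370cf3_ag.VanishingTensors

open FF Pool.Agent.W602.GT Pool.Agent.Y172 Pool.Agent.Y174 Pool.Agent.N133.TB

/-- Let `X` be a normal projective variety of dimension `n ≥ 1`, `κ = div η` a canonical divisor of
`X`, `Δ` and `A` any `ℚ`-divisors, and `T i`, `i ∈ ι`, finitely many tensor differentials of `(X, Δ)`
of degrees `m i ≥ 1` with values in `- a i A`, `a i > 0` rational (for `Δ = 0`: holomorphic tensors
which vanish along `a i A`), not all zero. Then one of the following two cases holds.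

* There are `W ≥ 1` and `b > 0`, with `b ≥ s n W` for every `s` with `a i ≥ s * m i` for all `i`, such
  that `W (K_X + Δ) - b A` has a nonzero section. So the Iitaka field of `A` is contained in the
  Iitaka field of `K_X + Δ`, and if a positive multiple of `A` has a nonzero section, then a positive
  multiple of `K_X + Δ` has one: `κ (K_X + Δ) ≥ κ (A)`.
* The tensors are unstable over the function field of `X`: there are a basis `f` of the rational
  vector fields with weights `w` of sum `0` and sum of squares `1` and a number `μ > 0` such that all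
  coefficients of the `T i` of weight less than `μ` vanish; `μ` is maximal, and the filtration of the
  tangent sheaf by the spans of the `f j` with `w j ≤ b`, `b ∈ ℝ`, is unique. -/
theorem result {K : Type} [Field K] [Algebra ℂ K] {n N : ℕ} {y : Fin (N + 1) → K}
    (hy : NormalModel y) (hn : Algebra.trdeg ℂ K = n) (hn1 : 1 ≤ n)
    {Δ A κ : Place ℂ K → ℚ} {η : (Fin n → Derivation ℂ K K) → K} (hη : IsPluri 1 η) (hη0 : η ≠ 0)
    (hκ : ∀ P, IsPrimeDivisor y P → OrdEq P η (κ P)) {ι : Type} [Fintype ι] {m : ι → ℕ}
    (hm : ∀ i, 1 ≤ m i) {a : ι → ℚ} (ha : ∀ i, 0 < a i)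
    {T : (i : ι) → MultilinearMap K (fun _ : Fin (m i) => Derivation ℂ K K) K}
    (hT : ∀ i, IsTensorV y Δ (-(a i • A)) (T i)) (hT0 : ∃ i, T i ≠ 0) :
    ((∃ (W : ℕ) (b : ℚ), 1 ≤ W ∧ 0 < b ∧ (∀ s : ℚ, (∀ i, s * m i ≤ a i) → s * (n * W) ≤ b) ∧
        ∃ φ, φ ≠ 0 ∧ FunSec y (W • (κ + Δ) - b • A) φ) ∧
      ratioField y A ≤ ratioField y (κ + Δ) ∧
      ((∃ e : ℕ, 1 ≤ e ∧ ∃ g, g ≠ 0 ∧ FunSec y (e • A) g) →
        ∃ e : ℕ, 1 ≤ e ∧ ∃ g, g ≠ 0 ∧ FunSec y (e • (κ + Δ)) g)) ∨
    ∃ (f : Fin n → Derivation ℂ K K) (w : Fin n → ℝ) (μ : ℝ), 0 < μ ∧ WtBasis T f w μ ∧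
      ∀ (f' : Fin n → Derivation ℂ K K) (w' : Fin n → ℝ) (μ' : ℝ), WtBasis T f' w' μ' →
        μ' ≤ μ ∧ (μ' = μ → ∀ b, lvl K f' w' b = lvl K f w b) :=
  cp_main hy hn hn1 hη hη0 hκ hm ha hT hT0

end Pool.Agent.Results.MP_370cf3_ag.VanishingTensors
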